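import Mathlib
import Pool.Agent.helper64.OT.SpecG

/-!
# Project OT, row TRG: the two cores for unions of translates of a set of small doubling
-/

set_option autoImplicit false

namespace Pool.Agent.OG

open Finset Pool.Agent.OT Pool.Agent.SPI Pool.Agent.helper85.PG
open scoped Pointwise

private lemma TRG_large (ε C : ℝ) (hε : 0 < ε) : ∃ p₁ : ℕ, ∀ p : ℕ, p₁ < p → C ≤ (p : ℝ) ^ ε := by
  have h1 := (tendsto_rpow_atTop hε).comp (tendsto_natCast_atTop_atTop (R := ℝ))
  obtain ⟨p₁, hp₁⟩ := Filter.eventually_atTop.1 (h1.eventually (Filter.eventually_ge_atTop C))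
  exact ⟨p₁, fun p hp => hp₁ p hp.le⟩

private lemma TRG_triv {p : ℕ} (χ : MulChar (ZMod p) ℂ) (X B : Finset (ZMod p)) (β : ZMod p → ℂ)
    (hχ : ∀ x, ‖χ x‖ ≤ 1) (hβ : ∀ b, ‖β b‖ ≤ 1) : ∑ x ∈ X, ‖Pool.Agent.OT.FB χ B β x‖ ≤ (X.card : ℝ) * B.card := by
  have h1 : ∀ x ∈ X, ‖Pool.Agent.OT.FB χ B β x‖ ≤ (B.card : ℝ) := by
    intro x _
    unfold Pool.Agent.OT.FB
    refine (norm_sum_le _ _).trans ?_
    calc ∑ b ∈ B, ‖β b * χ (x + b)‖ ≤ ∑ b ∈ B, (1 : ℝ) := by
          refine sum_le_sum fun b _ => ?_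
          rw [norm_mul]
          exact mul_le_one₀ (hβ b) (norm_nonneg _) (hχ _)
      _ = B.card := by rw [sum_const, nsmul_eq_mul, mul_one]
  refine (sum_le_sum h1).trans ?_
  rw [sum_const, nsmul_eq_mul]

private lemma TRG_neg {p : ℕ} [Fact p.Prime] {d : ℕ} {P : ℝ → Finset (ZMod p)} (h : IsSys p d P) {q : ZMod p}
    (hq : q ∈ P 1) : -q ∈ P 2 := by
  obtain ⟨E, i1, i2, G, _, _, _, hP⟩ := h
  rw [hP, mem_PP] at hq ⊢
  obtain ⟨x, hx, hx1⟩ := hq
  refine ⟨-x, ?_, ?_⟩
  · exact G.neg_mem hx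
  · rw [norm_neg]
    linarith

theorem TRG (hFRE : FRE_stmt) (hPKC : PKC_stmt) (hCOX : COX_stmt) (hCOH : COH_stmt) (hTRY : TRY_stmt) : TRG_stmt := by
  intro K ε hε
  have hε2 : 0 < ε / 2 := by linarith
  obtain ⟨d, C, hC1, hF⟩ := hFRE K
  obtain ⟨cA, pA, hcA, hA⟩ := hCOX d (ε / 2) hε2
  obtain ⟨cB, pB, hcB, hB⟩ := hCOH d (ε / 2) hε2
  obtain ⟨c, hc, hc1, hc2, hc4⟩ : ∃ c : ℝ, 0 < c ∧ c ≤ cA ∧ c ≤ cB ∧ c ≤ ε / 2 :=
    ⟨min (min cA cB) (ε / 2), lt_min (lt_min hcA hcB) hε2,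
      (min_le_left _ _).trans (min_le_left _ _), (min_le_left _ _).trans (min_le_right _ _), min_le_right _ _⟩
  have hc3 : 0 < c / 3 := by linarith
  obtain ⟨p₁, hp₁⟩ := TRG_large (ε / 2) (C ^ 2) hε2
  obtain ⟨p₂, hp₂⟩ := TRG_large (c / 3) (C * 5 ^ d) hc3
  refine ⟨c / 3, max (max pA pB) (max p₁ p₂), hc3, fun p _ hp χ X Y Z W H β hχ hβ hZ hyp => ?_⟩
  have hpA : pA < p := lt_of_le_of_lt ((le_max_left _ _).trans (le_max_left _ _)) hp
  have hpB : pB < p := lt_of_le_of_lt ((le_max_right _ _).trans (le_max_left _ _)) hp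
  have hpC : p₁ < p := lt_of_le_of_lt ((le_max_left _ _).trans (le_max_right _ _)) hp
  have hpD : p₂ < p := lt_of_le_of_lt ((le_max_right _ _).trans (le_max_right _ _)) hp
  have hL1 := hp₁ p hpC
  have hL2 := hp₂ p hpD
  have hC0 : (0 : ℝ) < C := by linarith
  have hCC : C ≤ C ^ 2 := by nlinarith
  have hp1 : (1 : ℝ) ≤ p := by exact_mod_cast (Fact.out : p.Prime).one_lt.le
  have hp0 : (0 : ℝ) < p := by linarith
  have hχ1 : ∀ x, ‖χ x‖ ≤ 1 := fun x => by
    by_cases hx : IsUnit x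
    · obtain ⟨u, rfl⟩ := hx
      exact (Complex.norm_eq_one_of_mem_rootsOfUnity (MulChar.apply_mem_rootsOfUnity u (χ := χ))).le
    · rw [χ.map_nonunit hx, norm_zero]
      exact zero_le_one
  obtain ⟨hdbl, hcov, hcase⟩ := hyp
  have hmono : ∀ a b : ℝ, a ≤ b → (p : ℝ) ^ a ≤ (p : ℝ) ^ b := fun a b h => Real.rpow_le_rpow_of_exponent_le hp1 h
  have hXY0 : 0 ≤ Real.sqrt (p * (X.card * Y.card)) + (X.card : ℝ) * Y.card := by positivity
  rcases X.eq_empty_or_nonempty with hX0 | hXne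
  · rw [hX0, sum_empty]
    positivity
  have hHne : H.Nonempty := by
    obtain ⟨x, hx⟩ := hXne
    obtain ⟨z, _, h, hh, _⟩ := Finset.mem_add.1 (hcov hx)
    exact ⟨h, hh⟩
  obtain ⟨P, F, hsys, hFC, hP1, hHF⟩ := hF p H hHne hdbl
  obtain ⟨-, T, -, hTc, hTcov⟩ := hPKC.2.2 p d P hsys 1 (1 / 2) (by norm_num) (by norm_num)
  have hT5 : (T.card : ℝ) ≤ 5 ^ d := by
    have h5 : (1 + 2 * 1 / (1 / 2) : ℝ) = 5 := by norm_num
    rw [h5] at hTc
    exact hTc
  have hV : ∀ (c' : ℝ) (X' B : Finset (ZMod p)), c ≤ c' → X'.card ≤ X.card → B.card = Y.card →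
      (p : ℝ) ^ (-c') * (Real.sqrt (p * (X'.card * B.card)) + X'.card * B.card) ≤
        (p : ℝ) ^ (-c) * (Real.sqrt (p * (X.card * Y.card)) + X.card * Y.card) := by
    intro c' X' B hcc hX' hBY
    have h4 : (X'.card : ℝ) ≤ X.card := by exact_mod_cast hX'
    rw [hBY]
    refine mul_le_mul (hmono _ _ (by linarith)) ?_ (by positivity) (by positivity)
    have h5 : (X'.card : ℝ) * Y.card ≤ X.card * Y.card := mul_le_mul_of_nonneg_right h4 (Nat.cast_nonneg _)
    exact add_le_add (Real.sqrt_le_sqrt (mul_le_mul_of_nonneg_left h5 hp0.le)) h5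
  have hZ' : ((Z + F + T).card : ℝ) ≤ (p : ℝ) ^ (c / 3) * (C * 5 ^ d) := by
    have h1 : (Z + F + T).card ≤ (Z + F).card * T.card := Finset.card_add_le
    have h2 : (Z + F).card ≤ Z.card * F.card := Finset.card_add_le
    have h3 : ((Z + F + T).card : ℝ) ≤ (Z.card * F.card) * T.card := by
      exact_mod_cast h1.trans (Nat.mul_le_mul_right _ h2)
    calc ((Z + F + T).card : ℝ) ≤ (Z.card * F.card) * T.card := h3
      _ ≤ ((p : ℝ) ^ (c / 3) * C) * 5 ^ d := by
          refine mul_le_mul (mul_le_mul hZ hFC (Nat.cast_nonneg _) (by positivity)) hT5 (Nat.cast_nonneg _) (by positivity)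
      _ = (p : ℝ) ^ (c / 3) * (C * 5 ^ d) := by ring
  have hcovQ : ∀ x ∈ X, ∃ z ∈ Z + F + T, x - z ∈ P (1 / 2) := by
    intro x hx
    obtain ⟨z, hz, h, hh, hzh⟩ := Finset.mem_add.1 (hcov hx)
    obtain ⟨f, hf, hf1⟩ := hHF h hh
    obtain ⟨t, ht, ht1⟩ := hTcov _ hf1
    refine ⟨z + f + t, Finset.add_mem_add (Finset.add_mem_add hz hf) ht, ?_⟩
    have h6 : x - (z + f + t) = h - f - t := by
      rw [← hzh]
      ring
    rw [h6]
    exact ht1
  have key := hTRY p χ (P (1 / 2)) X Y (Z + F + T) β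
    ((p : ℝ) ^ (-c) * (Real.sqrt (p * (X.card * Y.card)) + X.card * Y.card)) hβ hcovQ ?_
  · refine key.trans ?_
    calc ((Z + F + T).card : ℝ) * ((p : ℝ) ^ (-c) * (Real.sqrt (p * (X.card * Y.card)) + X.card * Y.card))
        ≤ ((p : ℝ) ^ (c / 3) * (p : ℝ) ^ (c / 3)) *
            ((p : ℝ) ^ (-c) * (Real.sqrt (p * (X.card * Y.card)) + X.card * Y.card)) := by
          refine mul_le_mul_of_nonneg_right (hZ'.trans ?_) (by positivity)
          exact mul_le_mul_of_nonneg_left hL2 (by positivity)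
      _ = (p : ℝ) ^ (-(c / 3)) * (Real.sqrt (p * (X.card * Y.card)) + X.card * Y.card) := by
          rw [← mul_assoc, ← Real.rpow_add hp0, ← Real.rpow_add hp0]
          congr 2
          ring
  · intro z hz X' hX'X hX'P β' hβ'
    have hcard : (Y.image fun y => z - y).card = Y.card :=
      Finset.card_image_of_injective _ fun a b hab => sub_right_injective hab
    rcases hcase with ⟨h4, h5⟩ | ⟨h4, h5⟩
    · by_cases h6 : ((Y.image fun y => z - y).card : ℝ) ≤ (p : ℝ) ^ (1 - ε / 2) ∨ (p : ℝ) ^ (ε / 2) ≤ X'.card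
      · refine (hA p hpA χ P X' (Y.image fun y => z - y) β' hχ hβ' hsys ?_ hX'P h6).trans (hV cA X' _ hc1 hX'X hcard)
        calc ((P 1).card : ℝ) ≤ C * H.card := hP1
          _ ≤ (p : ℝ) ^ (ε / 2) * (p : ℝ) ^ (3 / 4 - ε) :=
              mul_le_mul (hCC.trans hL1) h4 (Nat.cast_nonneg _) (by positivity)
          _ = (p : ℝ) ^ (3 / 4 - ε / 2) := by
              rw [← Real.rpow_add hp0]
              congr 1
              ring
      · push Not at h6
        obtain ⟨h7, h8⟩ := h6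
        rw [hcard] at h7
        have h9 : (p : ℝ) ^ ε ≤ X.card := by
          rcases h5 with h5 | h5
          · have := hmono (1 - ε) (1 - ε / 2) (by linarith)
            linarith
          · exact h5
        refine (TRG_triv χ X' _ β' hχ1 hβ').trans ?_
        rw [hcard]
        have hY0 : (0 : ℝ) ≤ Y.card := Nat.cast_nonneg _
        calc (X'.card : ℝ) * Y.card ≤ (p : ℝ) ^ (ε / 2) * Y.card := mul_le_mul_of_nonneg_right h8.le hY0
          _ = (p : ℝ) ^ (-(ε / 2)) * ((p : ℝ) ^ ε * Y.card) := by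
              rw [← mul_assoc, ← Real.rpow_add hp0]
              congr 2
              ring
          _ ≤ (p : ℝ) ^ (-c) * (X.card * Y.card) := by
              refine mul_le_mul (hmono _ _ (by linarith)) (mul_le_mul_of_nonneg_right h9 hY0) (by positivity) (by positivity)
          _ ≤ (p : ℝ) ^ (-c) * (Real.sqrt (p * (X.card * Y.card)) + X.card * Y.card) := by
              refine mul_le_mul_of_nonneg_left ?_ (by positivity)
              have := Real.sqrt_nonneg ((p : ℝ) * (X.card * Y.card))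
              linarith
    · refine (hB p hpB χ P X' (Y.image fun y => z - y) ((W + F).image fun v => z - v) β' hχ hβ' hsys hX'P ?_ ?_).trans
        (hV cB X' _ hc2 hX'X hcard)
      · have h7 : (((W + F).image fun v => z - v).card : ℝ) ≤ W.card * C := by
          have h8 : ((W + F).image fun v => z - v).card ≤ W.card * F.card :=
            Finset.card_image_le.trans Finset.card_add_le
          calc (((W + F).image fun v => z - v).card : ℝ) ≤ W.card * F.card := by exact_mod_cast h8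
            _ ≤ W.card * C := mul_le_mul_of_nonneg_left hFC (Nat.cast_nonneg _)
        calc ((P 1).card : ℝ) * ((W + F).image fun v => z - v).card ≤ (C * H.card) * (W.card * C) :=
              mul_le_mul hP1 h7 (Nat.cast_nonneg _) (by positivity)
          _ = C ^ 2 * (H.card * W.card) := by ring
          _ ≤ (p : ℝ) ^ (ε / 2) * (p : ℝ) ^ (1 - ε) :=
              mul_le_mul hL1 h4 (by positivity) (by positivity)
          _ = (p : ℝ) ^ (1 - ε / 2) := by
              rw [← Real.rpow_add hp0]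
              congr 1
              ring
      · intro b hb
        obtain ⟨y, hy, rfl⟩ := Finset.mem_image.1 hb
        obtain ⟨w, hw, h, hh, hwh⟩ := Finset.mem_add.1 (h5 hy)
        obtain ⟨f, hf, hf1⟩ := hHF h hh
        refine ⟨z - (w + f), Finset.mem_image.2 ⟨w + f, Finset.add_mem_add hw hf, rfl⟩, ?_⟩
        have h6 : z - y - (z - (w + f)) = -(h - f) := by
          rw [← hwh]
          ring
        show z - y - (z - (w + f)) ∈ P 2
        rw [h6]
        exact TRG_neg hsys hf1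

end Pool.Agent.OG
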