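import Pool.Agent.helper64.OT.SpecM

/-!
# Project OT, row EXC: exceptional pairs
-/

set_option autoImplicit false

namespace Pool.Agent.OT

open Finset

theorem EXC_quad {K : Type} [Field K] (F : Finset K) (β γ : K) (h : ∀ x ∈ F, x ^ 2 + β * x + γ = 0) : F.card ≤ 2 := by
  classical
  by_contra hc
  push Not at hc
  obtain ⟨x, hx, y, hy, z, hz, hxy, hxz, hyz⟩ := Finset.two_lt_card.1 hc
  have h1 := h x hx
  have h2 := h y hy
  have h3 := h z hz
  have h4 : (x - y) * (x + y + β) = 0 := by linear_combination h1 - h2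
  have h5 : (x - z) * (x + z + β) = 0 := by linear_combination h1 - h3
  have h6 : x + y + β = 0 := (mul_eq_zero.1 h4).resolve_left (sub_ne_zero.2 hxy)
  have h7 : x + z + β = 0 := (mul_eq_zero.1 h5).resolve_left (sub_ne_zero.2 hxz)
  exact hyz (by linear_combination h6 - h7)

theorem EXC_fib {K : Type} [Field K] [DecidableEq K] (h4 : (4 : K) ≠ 0) (F : Finset ((K × K) × K)) (α w k : K)
    (h : ∀ z ∈ F, z.1.1 + z.2 = α ∧ z.1.2 + z.2 = w ∧ 4 * (z.1.1 * z.1.2) = k) : F.card ≤ 2 := by
  have h1 : (F.image fun z => z.2).card = F.card := by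
    apply Finset.card_image_of_injOn
    intro z hz z' hz' hzz
    have e1 := h z hz
    have e2 := h z' hz'
    have hzz' : z.2 = z'.2 := hzz
    have e3 : z.1.1 = z'.1.1 := by linear_combination e1.1 - e2.1 - hzz'
    have e4 : z.1.2 = z'.1.2 := by linear_combination e1.2.1 - e2.2.1 - hzz'
    exact Prod.ext (Prod.ext e3 e4) hzz'
  rw [← h1]
  apply EXC_quad _ (-(α + w)) (α * w - k / 4)
  intro c hc
  obtain ⟨z, hz, rfl⟩ := Finset.mem_image.1 hc
  obtain ⟨e1, e2, e3⟩ := h z hz
  have e4 : z.1.1 = α - z.2 := by linear_combination e1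
  have e5 : z.1.2 = w - z.2 := by linear_combination e2
  rw [e4, e5] at e3
  have e6 : k / 4 = (α - z.2) * (w - z.2) := by
    rw [← e3]
    field_simp
  rw [e6]
  ring

theorem EXC : EXC_stmt := by
  intro p _ hp S a b c
  classical
  have h2 : (2 : ZMod p) ≠ 0 := by
    intro h
    have h' : ((2 : ℕ) : ZMod p) = 0 := by exact_mod_cast h
    rw [ZMod.natCast_eq_zero_iff] at h'
    exact hp (((Nat.prime_dvd_prime_iff_eq (Fact.out : p.Prime) Nat.prime_two).1 h'))
  have h4 : (4 : ZMod p) ≠ 0 := by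
    have : (4 : ZMod p) = 2 * 2 := by norm_num
    rw [this]
    exact mul_ne_zero h2 h2
  set Z := ((S ×ˢ S) ×ˢ S).filter fun z => ∃ κ : ZMod p, κ ≠ 0 ∧ (z.1.2 + z.2) ^ 2 = κ * (b + c) ^ 2 ∧
    4 * (z.1.1 * z.1.2) - 2 * ((z.1.1 + z.2) * (z.1.2 + z.2)) = κ * (4 * (a * b) - 2 * ((a + c) * (b + c))) ∧
    (z.1.1 + z.2) ^ 2 = κ * (a + c) ^ 2 with hZ
  set W := (S ×ˢ S).image fun z => z.1 + z.2 with hW
  have hmem : ∀ z ∈ Z, z.1.1 ∈ S ∧ z.1.2 ∈ S ∧ z.2 ∈ S := by
    intro z hz
    have h := (Finset.mem_filter.1 hz).1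
    rw [Finset.mem_product, Finset.mem_product] at h
    exact ⟨h.1.1, h.1.2, h.2⟩
  have hWm : ∀ x ∈ S, ∀ y ∈ S, x + y ∈ W := fun x hx y hy =>
    Finset.mem_image.2 ⟨(x, y), Finset.mem_product.2 ⟨hx, hy⟩, rfl⟩
  by_cases hA : b + c = 0
  · by_cases hB : a + c = 0
    · -- both zero
      have h1 : (Z.image fun z => z.1.1 + z.1.2).card = Z.card := by
        apply Finset.card_image_of_injOn
        intro z hz z' hz' hzz
        obtain ⟨κ, hκ, e1, e2, e3⟩ := (Finset.mem_filter.1 hz).2
        obtain ⟨κ', hκ', e1', e2', e3'⟩ := (Finset.mem_filter.1 hz').2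
        rw [hA, zero_pow two_ne_zero, mul_zero] at e1 e1'
        rw [hB, zero_pow two_ne_zero, mul_zero] at e3 e3'
        have f1 := pow_eq_zero_iff two_ne_zero |>.1 e1
        have f1' := pow_eq_zero_iff two_ne_zero |>.1 e1'
        have f3 := pow_eq_zero_iff two_ne_zero |>.1 e3
        have f3' := pow_eq_zero_iff two_ne_zero |>.1 e3'
        have hzz' : z.1.1 + z.1.2 = z'.1.1 + z'.1.2 := hzz
        have g : z.2 = z'.2 := by
          have g1 : 2 * z.2 = 2 * z'.2 := by linear_combination f1 + f3 - f1' - f3' - hzz'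
          exact mul_left_cancel₀ h2 g1
        have g2 : z.1.1 = z'.1.1 := by linear_combination f3 - f3' - g
        have g3 : z.1.2 = z'.1.2 := by linear_combination f1 - f1' - g
        exact Prod.ext (Prod.ext g2 g3) g
      have h3 : (Z.image fun z => z.1.1 + z.1.2) ⊆ W := by
        intro w hw
        obtain ⟨z, hz, rfl⟩ := Finset.mem_image.1 hw
        exact hWm _ (hmem z hz).1 _ (hmem z hz).2.1
      have h5 := Finset.card_le_card h3
      omega
    · have h1 : Z.card ≤ 2 * (Z.image fun z => z.1.1 + z.2).card := by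
        apply Finset.card_le_mul_card_image
        intro w _
        apply EXC_fib h4 _ w 0 ((w / (a + c)) ^ 2 * (4 * (a * b)))
        intro z hz
        obtain ⟨hz1, hz2⟩ := Finset.mem_filter.1 hz
        obtain ⟨κ, hκ, e1, e2, e3⟩ := (Finset.mem_filter.1 hz1).2
        rw [hA, zero_pow two_ne_zero, mul_zero] at e1
        have f1 := pow_eq_zero_iff two_ne_zero |>.1 e1
        rw [hz2] at e3
        have f3 : κ = (w / (a + c)) ^ 2 := by
          rw [div_pow, e3]
          field_simp
        refine ⟨hz2, f1, ?_⟩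
        rw [f1, hA] at e2
        rw [← f3]
        linear_combination e2
      have h3 : (Z.image fun z => z.1.1 + z.2) ⊆ W := by
        intro w hw
        obtain ⟨z, hz, rfl⟩ := Finset.mem_image.1 hw
        exact hWm _ (hmem z hz).1 _ (hmem z hz).2.2
      have h5 := Finset.card_le_card h3
      omega
  · have h1 : Z.card ≤ 4 * (Z.image fun z => z.1.2 + z.2).card := by
      apply Finset.card_le_mul_card_image
      intro w _
      set F := Z.filter fun z => z.1.2 + z.2 = w with hF
      have hsub : F ⊆ (F.filter fun z => z.1.1 + z.2 = w / (b + c) * (a + c)) ∪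
          (F.filter fun z => z.1.1 + z.2 = -(w / (b + c) * (a + c))) := by
        intro z hz
        obtain ⟨hz1, hz2⟩ := Finset.mem_filter.1 hz
        obtain ⟨κ, hκ, e1, e2, e3⟩ := (Finset.mem_filter.1 hz1).2
        rw [hz2] at e1
        have f3 : κ = (w / (b + c)) ^ 2 := by
          rw [div_pow, e1]
          field_simp
        rw [f3, ← mul_pow] at e3
        rcases sq_eq_sq_iff_eq_or_eq_neg.1 e3 with h | h
        · exact Finset.mem_union_left _ (Finset.mem_filter.2 ⟨hz, h⟩)
        · exact Finset.mem_union_right _ (Finset.mem_filter.2 ⟨hz, h⟩)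
      have hk : ∀ α : ZMod p, (F.filter fun z => z.1.1 + z.2 = α).card ≤ 2 := by
        intro α
        apply EXC_fib h4 _ α w (2 * (α * w) + (w / (b + c)) ^ 2 * (4 * (a * b) - 2 * ((a + c) * (b + c))))
        intro z hz
        obtain ⟨hz0, hz3⟩ := Finset.mem_filter.1 hz
        obtain ⟨hz1, hz2⟩ := Finset.mem_filter.1 hz0
        obtain ⟨κ, hκ, e1, e2, e3⟩ := (Finset.mem_filter.1 hz1).2
        rw [hz2] at e1
        have f3 : κ = (w / (b + c)) ^ 2 := by
          rw [div_pow, e1]
          field_simp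
        rw [hz2, hz3, f3] at e2
        refine ⟨hz3, hz2, ?_⟩
        linear_combination e2
      have h3 := Finset.card_le_card hsub
      have h5 := Finset.card_union_le (F.filter fun z => z.1.1 + z.2 = w / (b + c) * (a + c))
          (F.filter fun z => z.1.1 + z.2 = -(w / (b + c) * (a + c)))
      have h6 := hk (w / (b + c) * (a + c))
      have h7 := hk (-(w / (b + c) * (a + c)))
      omega
    have h3 : (Z.image fun z => z.1.2 + z.2) ⊆ W := by
      intro w hw
      obtain ⟨z, hz, rfl⟩ := Finset.mem_image.1 hw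
      exact hWm _ (hmem z hz).2.1 _ (hmem z hz).2.2
    have h5 := Finset.card_le_card h3
    omega

end Pool.Agent.OT
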