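import Mathlib
import Pool.Agent.helper64.OT.SpecI
import Pool.Agent.helper24.OT.MF1
import Pool.Agent.helper25.OT.FME

/-!
# Project OT, row M4H: the fourth moment of the correlations over a set
-/

set_option autoImplicit false

namespace Pool.Agent.OL

open Finset Pool.Agent.OT Pool.Agent.SPI Pool.Agent.helper85.PG
open scoped Pointwise

private lemma M4H_tri1 {p : ℕ} [NeZero p] (g : ZMod p → ℝ) (N : ℝ) (hN : 0 ≤ N) (h0 : ∀ x, 0 ≤ g x) (h1 : ∀ x, g x ≤ 1)
    (h : ∑ x : ZMod p, g x = N) :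
    MF1_G (fun a b c d => MF1_e a b * MF1_e a c * (g a * g b * g c * g d)) ≤ N ^ 2 := by
  rw [MF1_G_eq]
  have e1 : ∀ a : ZMod p, ∑ b : ZMod p, ∑ c : ZMod p, ∑ d : ZMod p, MF1_e a b * MF1_e a c * (g a * g b * g c * g d) ≤ g a * N := by
    intro a
    have e2 : ∀ b c : ZMod p, ∑ d : ZMod p, MF1_e a b * MF1_e a c * (g a * g b * g c * g d) =
        MF1_e a c * (MF1_e a b * (g a * g b) * g c * N) := by
      intro b c
      rw [← h, Finset.mul_sum, Finset.mul_sum]
      refine Finset.sum_congr rfl fun d _ => by ring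
    have e3 : ∀ b : ZMod p, ∑ c : ZMod p, ∑ d : ZMod p, MF1_e a b * MF1_e a c * (g a * g b * g c * g d) =
        MF1_e a b * (g a * g b * g a * N) := by
      intro b
      rw [Finset.sum_congr rfl fun c _ => e2 b c]
      have e4 : ∀ c : ZMod p, MF1_e a c * (MF1_e a b * (g a * g b) * g c * N) =
          if a = c then MF1_e a b * (g a * g b) * g c * N else 0 := by
        intro c
        unfold MF1_e
        split_ifs <;> simp
      rw [Finset.sum_congr rfl fun c _ => e4 c, Finset.sum_ite_eq, if_pos (Finset.mem_univ a)]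
      ring
    rw [Finset.sum_congr rfl fun b _ => e3 b]
    have e5 : ∀ b : ZMod p, MF1_e a b * (g a * g b * g a * N) = if a = b then g a * g b * g a * N else 0 := by
      intro b
      unfold MF1_e
      split_ifs <;> simp
    rw [Finset.sum_congr rfl fun b _ => e5 b, Finset.sum_ite_eq, if_pos (Finset.mem_univ a)]
    have e6 : g a * g a * g a ≤ g a := by
      have h2 := h0 a
      have h3 := h1 a
      have h4 : g a * g a ≤ 1 := by nlinarith
      nlinarith
    nlinarith
  refine (Finset.sum_le_sum fun a _ => e1 a).trans (le_of_eq ?_)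
  rw [← Finset.sum_mul, h]
  ring

private lemma M4H_tri4 {p : ℕ} [NeZero p] (g : ZMod p → ℝ) (N : ℝ) (h0 : ∀ x, 0 ≤ g x) (h1 : ∀ x, g x ≤ 1)
    (h : ∑ x : ZMod p, g x = N) :
    MF1_G (fun a b c d => MF1_e b c * MF1_e b d * (g a * g b * g c * g d)) ≤ N ^ 2 := by
  rw [MF1_G_eq]
  have e1 : ∀ a b : ZMod p, ∑ c : ZMod p, ∑ d : ZMod p, MF1_e b c * MF1_e b d * (g a * g b * g c * g d) ≤ g a * g b := by
    intro a b
    have e3 : ∀ c : ZMod p, ∑ d : ZMod p, MF1_e b c * MF1_e b d * (g a * g b * g c * g d) =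
        MF1_e b c * (g a * g b * g c * g b) := by
      intro c
      have e4 : ∀ d : ZMod p, MF1_e b c * MF1_e b d * (g a * g b * g c * g d) =
          if b = d then MF1_e b c * (g a * g b * g c * g d) else 0 := by
        intro d
        unfold MF1_e
        split_ifs <;> simp
      rw [Finset.sum_congr rfl fun d _ => e4 d, Finset.sum_ite_eq, if_pos (Finset.mem_univ b)]
    rw [Finset.sum_congr rfl fun c _ => e3 c]
    have e5 : ∀ c : ZMod p, MF1_e b c * (g a * g b * g c * g b) = if b = c then g a * g b * g c * g b else 0 := by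
      intro c
      unfold MF1_e
      split_ifs <;> simp
    rw [Finset.sum_congr rfl fun c _ => e5 c, Finset.sum_ite_eq, if_pos (Finset.mem_univ b)]
    have h2 := h0 b
    have h3 := h1 b
    have h4 : g b * g b ≤ 1 := by nlinarith
    have h5 : 0 ≤ g a * g b := mul_nonneg (h0 a) (h0 b)
    nlinarith
  refine (Finset.sum_le_sum fun a _ => Finset.sum_le_sum fun b _ => e1 a b).trans (le_of_eq ?_)
  exact MF1_full g N h

private lemma M4H_lam (hHHB : HHB_stmt) (p : ℕ) [Fact p.Prime] (χ : MulChar (ZMod p) ℂ) (hχ : χ ≠ 1)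
    (x₁ x₂ x₃ x₄ : ZMod p) (w : ℝ) (hw : 0 ≤ w) :
    ∑ lam ∈ univ.filter (fun lam : ZMod p => lam ≠ 0 ∧ lam ≠ 1),
        HH χ lam * (if qq lam x₁ x₂ x₃ x₄ = 0 then w else 0) ≤
      4 * p * (w + p * (MF1_e x₁ x₃ * MF1_e x₁ x₄ * w + MF1_e x₁ x₄ * MF1_e x₂ x₄ * w + MF1_e x₂ x₃ * MF1_e x₁ x₃ * w +
        MF1_e x₂ x₃ * MF1_e x₂ x₄ * w)) := by
  have hp : (0 : ℝ) ≤ p := Nat.cast_nonneg p
  set U := (univ.filter (fun lam : ZMod p => lam ≠ 0 ∧ lam ≠ 1)).filter (fun lam => qq lam x₁ x₂ x₃ x₄ = 0) with hU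
  have s1 : ∑ lam ∈ univ.filter (fun lam : ZMod p => lam ≠ 0 ∧ lam ≠ 1),
        HH χ lam * (if qq lam x₁ x₂ x₃ x₄ = 0 then w else 0) ≤ ∑ lam ∈ univ.filter (fun lam : ZMod p => lam ≠ 0 ∧ lam ≠ 1),
        (if qq lam x₁ x₂ x₃ x₄ = 0 then 4 * p * w else 0) := by
    refine Finset.sum_le_sum fun lam hl => ?_
    obtain ⟨-, hl0, hl1⟩ := Finset.mem_filter.1 hl
    have h2 := hHHB p χ lam hχ hl0 hl1
    split_ifs
    · exact mul_le_mul_of_nonneg_right h2 hw
    · rw [mul_zero]
  have s2 : ∑ lam ∈ univ.filter (fun lam : ZMod p => lam ≠ 0 ∧ lam ≠ 1),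
        (if qq lam x₁ x₂ x₃ x₄ = 0 then 4 * p * w else 0) = (U.card : ℝ) * (4 * p * w) := by
    rw [← Finset.sum_filter, Finset.sum_const, nsmul_eq_mul]
  rw [s2] at s1
  have e13 := MF1_e_nonneg x₁ x₃
  have e14 := MF1_e_nonneg x₁ x₄
  have e23 := MF1_e_nonneg x₂ x₃
  have e24 := MF1_e_nonneg x₂ x₄
  have f1 : 0 ≤ MF1_e x₁ x₃ * MF1_e x₁ x₄ * w := by positivity
  have f2 : 0 ≤ MF1_e x₁ x₄ * MF1_e x₂ x₄ * w := by positivity
  have f3 : 0 ≤ MF1_e x₂ x₃ * MF1_e x₁ x₃ * w := by positivity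
  have f4 : 0 ≤ MF1_e x₂ x₃ * MF1_e x₂ x₄ * w := by positivity
  set R := MF1_e x₁ x₃ * MF1_e x₁ x₄ * w + MF1_e x₁ x₄ * MF1_e x₂ x₄ * w + MF1_e x₂ x₃ * MF1_e x₁ x₃ * w +
        MF1_e x₂ x₃ * MF1_e x₂ x₄ * w with hR
  have hR0 : 0 ≤ R := by linarith
  have h4w : 0 ≤ 4 * (p : ℝ) * w := by positivity
  have hpR : 0 ≤ 4 * (p : ℝ) * (p * R) := by positivity
  refine s1.trans ?_
  by_cases hB : (x₁ - x₄) * (x₂ - x₃) = 0
  · by_cases hA : (x₁ - x₃) * (x₂ - x₄) = 0
    · have hUc : (U.card : ℝ) ≤ p := by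
        have h5 : U.card ≤ (univ : Finset (ZMod p)).card := Finset.card_le_card (Finset.subset_univ U)
        rw [Finset.card_univ, ZMod.card] at h5
        exact_mod_cast h5
      have hwR : w ≤ R := by
        have hone : ∀ a b : ZMod p, a = b → MF1_e a b = 1 := fun a b hab => by
          unfold MF1_e
          rw [if_pos hab]
        rcases mul_eq_zero.1 hB with h | h
        · have h14 := hone _ _ (sub_eq_zero.1 h)
          rcases mul_eq_zero.1 hA with h' | h'
          · have h13 := hone _ _ (sub_eq_zero.1 h')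
            have : MF1_e x₁ x₃ * MF1_e x₁ x₄ * w = w := by rw [h13, h14]; ring
            linarith
          · have h24 := hone _ _ (sub_eq_zero.1 h')
            have : MF1_e x₁ x₄ * MF1_e x₂ x₄ * w = w := by rw [h14, h24]; ring
            linarith
        · have h23 := hone _ _ (sub_eq_zero.1 h)
          rcases mul_eq_zero.1 hA with h' | h'
          · have h13 := hone _ _ (sub_eq_zero.1 h')
            have : MF1_e x₂ x₃ * MF1_e x₁ x₃ * w = w := by rw [h13, h23]; ring
            linarith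
          · have h24 := hone _ _ (sub_eq_zero.1 h')
            have : MF1_e x₂ x₃ * MF1_e x₂ x₄ * w = w := by rw [h23, h24]; ring
            linarith
      calc (U.card : ℝ) * (4 * p * w) ≤ p * (4 * p * w) := mul_le_mul_of_nonneg_right hUc h4w
        _ = 4 * p * (p * w) := by ring
        _ ≤ 4 * p * (w + p * R) := by
            refine mul_le_mul_of_nonneg_left ?_ (by positivity)
            have := mul_le_mul_of_nonneg_left hwR hp
            linarith
    · have hUe : U = ∅ := by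
        rw [Finset.eq_empty_iff_forall_notMem]
        intro lam hlam
        have h5 := (Finset.mem_filter.1 hlam).2
        unfold qq at h5
        rw [hB, mul_zero, sub_zero] at h5
        exact hA h5
      rw [hUe, Finset.card_empty, Nat.cast_zero, zero_mul]
      positivity
  · have hUc : (U.card : ℝ) ≤ 1 := by
      have h5 : U.card ≤ 1 := by
        rw [Finset.card_le_one]
        intro a ha b hb
        have h6 := (Finset.mem_filter.1 ha).2
        have h7 := (Finset.mem_filter.1 hb).2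
        unfold qq at h6 h7
        have h8 : a * ((x₁ - x₄) * (x₂ - x₃)) = b * ((x₁ - x₄) * (x₂ - x₃)) := by
          linear_combination h7 - h6
        exact mul_right_cancel₀ hB h8
      exact_mod_cast h5
    calc (U.card : ℝ) * (4 * p * w) ≤ 1 * (4 * p * w) := mul_le_mul_of_nonneg_right hUc h4w
      _ = 4 * p * w := by ring
      _ ≤ 4 * p * (w + p * R) := by
          rw [mul_add]
          linarith

theorem M4H (hCRR : CRR_stmt) (hCSB : CSB_stmt) (hHHB : HHB_stmt) : M4H_stmt := by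
  intro p _ χ G hχ
  classical
  set g : ZMod p → ℝ := fun x => if x ∈ G then 1 else 0 with hg
  have h0 : ∀ x : ZMod p, 0 ≤ g x := fun x => by
    show (0 : ℝ) ≤ if x ∈ G then 1 else 0
    split_ifs <;> norm_num
  have h1 : ∀ x : ZMod p, g x ≤ 1 := fun x => by
    show (if x ∈ G then (1 : ℝ) else 0) ≤ 1
    split_ifs <;> norm_num
  set N : ℝ := (G.card : ℝ) with hN
  have hN0 : 0 ≤ N := Nat.cast_nonneg _
  have hsum : ∑ x : ZMod p, g x = N := by
    rw [hg, Finset.sum_ite_mem, Finset.univ_inter, Finset.sum_const, nsmul_eq_mul, mul_one]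
  have hNp : N ≤ p := by
    have h5 : G.card ≤ (univ : Finset (ZMod p)).card := Finset.card_le_card (Finset.subset_univ G)
    rw [Finset.card_univ, ZMod.card] at h5
    show (G.card : ℝ) ≤ p
    exact_mod_cast h5
  have hone := MF1_one (p := p) g N hN0 h0 h1 hsum
  have htwo := MF1_two (p := p) g N hN0 h0 h1 hsum
  have htr1 := M4H_tri1 (p := p) g N hN0 h0 h1 hsum
  have htr4 := M4H_tri4 (p := p) g N h0 h1 hsum
  set W : ZMod p → ZMod p → ZMod p → ZMod p → ℝ := fun a b c d => g a * g b * g c * g d with hW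
  have hW0 : ∀ a b c d, 0 ≤ W a b c d := fun a b c d => mul_nonneg (mul_nonneg (mul_nonneg (h0 a) (h0 b)) (h0 c)) (h0 d)
  have a12 : MF1_G (fun a b c d : ZMod p => MF1_e a b * W a b c d) ≤ N ^ 3 := hone.1
  have a34 : MF1_G (fun a b c d : ZMod p => MF1_e c d * W a b c d) ≤ N ^ 3 := hone.2
  have a13 : MF1_G (fun a b c d : ZMod p => MF1_e a c * W a b c d) ≤ N ^ 3 := by
    rw [MF1_swap]
    refine le_trans (le_of_eq ?_) hone.1
    congr 1; funext a b c d; simp only [hW]; ring
  have a24 : MF1_G (fun a b c d : ZMod p => MF1_e b d * W a b c d) ≤ N ^ 3 := by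
    rw [MF1_swap]
    refine le_trans (le_of_eq ?_) hone.2
    congr 1; funext a b c d; simp only [hW]; ring
  have a14 : MF1_G (fun a b c d : ZMod p => MF1_e a d * W a b c d) ≤ N ^ 3 := by
    rw [MF1_rot]
    refine le_trans (le_of_eq ?_) hone.1
    congr 1; funext a b c d; simp only [hW]; ring
  have a23 : MF1_G (fun a b c d : ZMod p => MF1_e b c * W a b c d) ≤ N ^ 3 := by
    rw [MF1_rot]
    refine le_trans (le_of_eq ?_) hone.2
    congr 1; funext a b c d; simp only [hW]; ring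
  have b1 : MF1_G (fun a b c d : ZMod p => MF1_e a b * MF1_e c d * W a b c d) ≤ N ^ 2 := htwo
  have b2 : MF1_G (fun a b c d : ZMod p => MF1_e a d * MF1_e b c * W a b c d) ≤ N ^ 2 := by
    rw [MF1_rot]
    refine le_trans (le_of_eq ?_) htwo
    congr 1; funext a b c d; simp only [hW]; ring
  have b3 : MF1_G (fun a b c d : ZMod p => MF1_e a c * MF1_e b d * W a b c d) ≤ N ^ 2 := by
    rw [MF1_swap]
    refine le_trans (le_of_eq ?_) htwo
    congr 1; funext a b c d; simp only [hW]; ring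
  -- the triples
  have hsy : ∀ a b c : ZMod p, MF1_e b c * MF1_e a c = MF1_e a b * MF1_e a c := by
    intro a b c
    unfold MF1_e
    by_cases h2 : a = c
    · by_cases h3 : b = c
      · rw [if_pos h2, if_pos h3, if_pos (h2.trans h3.symm)]
      · rw [if_pos h2, if_neg h3, if_neg (fun h => h3 (h.symm.trans h2))]
    · rw [if_neg h2, mul_zero, mul_zero]
  have t3 : MF1_G (fun a b c d : ZMod p => MF1_e b c * MF1_e a c * W a b c d) ≤ N ^ 2 := by
    refine le_trans (le_of_eq ?_) htr1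
    congr 1; funext a b c d
    rw [hsy]
  have t2 : MF1_G (fun a b c d : ZMod p => MF1_e a d * MF1_e b d * W a b c d) ≤ N ^ 2 := by
    rw [MF1_rot, MF1_swap]
    refine le_trans (le_of_eq ?_) t3
    congr 1; funext a b c d; simp only [hW]; ring
  have t1 : MF1_G (fun a b c d : ZMod p => MF1_e a c * MF1_e a d * W a b c d) ≤ N ^ 2 := by
    rw [MF1_rot]
    rw [MF1_rot]
    refine le_trans (le_of_eq ?_) htr1
    congr 1; funext a b c d; simp only [hW]; ring
  have t4 : MF1_G (fun a b c d : ZMod p => MF1_e b c * MF1_e b d * W a b c d) ≤ N ^ 2 := htr4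
  have hfull : MF1_G (fun a b c d : ZMod p => W a b c d) = N ^ 4 := by
    have e := MF1_prod (p := p) (fun a b => g a * g b) (fun c d => g c * g d)
    rw [MF1_full g N hsum] at e
    calc MF1_G (fun a b c d : ZMod p => W a b c d) = MF1_G (fun a b c d => (g a * g b) * (g c * g d)) := by
          congr 1; funext a b c d; simp only [hW]; ring
      _ = N ^ 2 * N ^ 2 := e
      _ = N ^ 4 := by ring
  have hpt := MF1_G_mono (p := p) (fun a b c d => W a b c d * ‖CS χ a b c d‖ ^ 2)
    (fun a b c d => 4 * p * (W a b c d + p * (MF1_e a c * MF1_e a d * W a b c d + MF1_e a d * MF1_e b d * W a b c d +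
        MF1_e b c * MF1_e a c * W a b c d + MF1_e b c * MF1_e b d * W a b c d)) +
      ((p : ℝ) + 1) ^ 2 * (MF1_e a b * MF1_e c d * W a b c d + MF1_e a d * MF1_e b c * W a b c d +
        MF1_e a c * MF1_e b d * W a b c d) +
      9 * p * (MF1_e a b * W a b c d + MF1_e a c * W a b c d + MF1_e a d * W a b c d + MF1_e b c * W a b c d +
        MF1_e b d * W a b c d + MF1_e c d * W a b c d))
    (fun a b c d => (MF1_point hCRR hCSB p χ hχ a b c d (W a b c d) (hW0 a b c d)).trans (by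
      have := M4H_lam hHHB p χ hχ a b c d (W a b c d) (hW0 a b c d)
      linarith))
  rw [MF1_G_add, MF1_G_add, MF1_G_mul, MF1_G_mul, MF1_G_mul, MF1_G_add, MF1_G_mul, MF1_G_add, MF1_G_add, MF1_G_add,
    MF1_G_add, MF1_G_add, MF1_G_add, MF1_G_add, MF1_G_add, MF1_G_add, MF1_G_add, hfull] at hpt
  have hp0 : (0 : ℝ) ≤ p := Nat.cast_nonneg p
  have hp2 : (2 : ℝ) ≤ p := by exact_mod_cast (Fact.out : p.Prime).two_le
  have hp1 : (0 : ℝ) ≤ ((p : ℝ) + 1) ^ 2 := by positivity
  have hp9 : (0 : ℝ) ≤ 9 * (p : ℝ) := by positivity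
  have c0 := mul_le_mul_of_nonneg_left (add_le_add_right (mul_le_mul_of_nonneg_left
    (add_le_add (add_le_add (add_le_add t1 t2) t3) t4) hp0) (N ^ 4)) (by positivity : (0 : ℝ) ≤ 4 * p)
  have c1 := mul_le_mul_of_nonneg_left (add_le_add (add_le_add b1 b2) b3) hp1
  have c2 := mul_le_mul_of_nonneg_left
    (add_le_add (add_le_add (add_le_add (add_le_add (add_le_add a12 a13) a14) a23) a24) a34) hp9
  have hgen := FME_gen (fun x : ZMod p => g x) (fun (c : Option (ZMod p)) x => ch χ c x)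
  have hTG : ∀ c c' : Option (ZMod p), ∑ x, (g x : ℂ) * (ch χ c x * (starRingEnd ℂ) (ch χ c' x)) = TG χ G c c' := by
    intro c c'
    unfold TG
    have e1 : ∀ x : ZMod p, (g x : ℂ) * (ch χ c x * (starRingEnd ℂ) (ch χ c' x)) =
        if x ∈ G then ch χ c x * (starRingEnd ℂ) (ch χ c' x) else 0 := by
      intro x
      show ((if x ∈ G then (1 : ℝ) else 0 : ℝ) : ℂ) * _ = _
      split_ifs <;> simp
    rw [Finset.sum_congr rfl fun x _ => e1 x, Finset.sum_ite_mem, Finset.univ_inter]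
  have hL : ∑ c : ZMod p, ∑ c' ∈ univ.filter (fun c' : ZMod p => c ≠ c'), ‖TG χ G (some c) (some c')‖ ^ 4 ≤
      ∑ c : Option (ZMod p), ∑ c' : Option (ZMod p), ‖TG χ G c c'‖ ^ 4 := by
    rw [Fintype.sum_option]
    have e1 : 0 ≤ ∑ c' : Option (ZMod p), ‖TG χ G none c'‖ ^ 4 := Finset.sum_nonneg fun _ _ => by positivity
    have e2 : ∀ c : ZMod p, ∑ c' ∈ univ.filter (fun c' : ZMod p => c ≠ c'), ‖TG χ G (some c) (some c')‖ ^ 4 ≤
        ∑ c' : Option (ZMod p), ‖TG χ G (some c) c'‖ ^ 4 := by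
      intro c
      rw [Fintype.sum_option]
      have e3 : 0 ≤ ‖TG χ G (some c) none‖ ^ 4 := by positivity
      have e4 := Finset.sum_le_sum_of_subset_of_nonneg (Finset.filter_subset (fun c' : ZMod p => c ≠ c') univ)
        (f := fun c' : ZMod p => ‖TG χ G (some c) (some c')‖ ^ 4) fun _ _ _ => by positivity
      linarith
    have e5 := Finset.sum_le_sum (s := (univ : Finset (ZMod p))) fun c _ => e2 c
    linarith
  refine hL.trans ?_
  have hEq : ∑ c : Option (ZMod p), ∑ c' : Option (ZMod p), ‖TG χ G c c'‖ ^ 4 =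
      MF1_G (fun a b c d => W a b c d * ‖CS χ a b c d‖ ^ 2) := by
    rw [MF1_G_eq]
    refine Eq.trans ?_ hgen
    refine Finset.sum_congr rfl fun c _ => Finset.sum_congr rfl fun c' _ => ?_
    rw [hTG]
  rw [hEq]
  refine hpt.trans ((add_le_add (add_le_add c0 c1) c2).trans ?_)
  have k1 : N ^ 3 ≤ N ^ 2 * p := by
    calc N ^ 3 = N ^ 2 * N := by ring
      _ ≤ N ^ 2 * p := mul_le_mul_of_nonneg_left hNp (by positivity)
  have k2 : ((p : ℝ) + 1) ^ 2 ≤ 3 * (p : ℝ) ^ 2 := by nlinarith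
  have k3 : 0 ≤ N ^ 2 := by positivity
  have k4 := mul_le_mul_of_nonneg_right k2 k3
  have k5 := mul_le_mul_of_nonneg_left k1 hp0
  nlinarith

end Pool.Agent.OL
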