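import Pool.Agent.helper64.OT.SpecD

/-!
# Project OT, row PC1: the expansion over the cells
-/

set_option autoImplicit false

namespace Pool.Agent.OT

open Finset

theorem PC1_maj (hMAJ : MAJ_stmt) (p : ℕ) [Fact p.Prime] (N T : ℕ) (hT : 0 < T)
    (h : 16 * N * T ≤ p) (n y : ℕ) (hn : n < N) (hy : y < N) :
    1 / 2 ≤ psi T ((n : ZMod p) + (y : ZMod p)) := by
  have h1 : 16 * N ≤ p := le_trans (Nat.le_mul_of_pos_right _ hT) h
  have h2 : ((n : ZMod p) + (y : ZMod p)) = ((n + y : ℕ) : ZMod p) := by push_cast; rfl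
  rw [h2]
  apply hMAJ p T _ hT
  rw [ZMod.val_natCast_of_lt (by omega)]
  calc 8 * T * (n + y) ≤ 8 * T * (2 * N) := Nat.mul_le_mul_left _ (by omega)
    _ = 16 * N * T := by ring
    _ ≤ p := h

theorem PC1_psi0 (p : ℕ) [NeZero p] (T : ℕ) (x : ZMod p) : 0 ≤ psi T x := by
  unfold psi
  positivity

theorem PC1_one (hMAJ : MAJ_stmt) (p : ℕ) [Fact p.Prime] (χ : MulChar (ZMod p) ℂ) (N T : ℕ) (B : Finset (ZMod p))
    (β : ZMod p → ℂ) (hT : 0 < T) (h : 16 * N * T ≤ p) (y : ℕ) (hy : y < N) :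
    ∑ n ∈ range N, ‖FB χ B β (n : ZMod p)‖ ^ 2 ≤ 2 * ∑ x : ZMod p, psi T (x + (y : ZMod p)) * ‖FB χ B β x‖ ^ 2 := by
  have h1 : 16 * N ≤ p := le_trans (Nat.le_mul_of_pos_right _ hT) h
  rw [Finset.mul_sum]
  have hinj : Set.InjOn (fun n : ℕ => (n : ZMod p)) (range N : Finset ℕ) := by
    intro a ha b hb hab
    have ha' : a < N := Finset.mem_range.1 ha
    have hb' : b < N := Finset.mem_range.1 hb
    have h3 : ((a : ℕ) : ZMod p).val = ((b : ℕ) : ZMod p).val := congrArg ZMod.val hab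
    rwa [ZMod.val_natCast_of_lt (by omega), ZMod.val_natCast_of_lt (by omega)] at h3
  calc ∑ n ∈ range N, ‖FB χ B β (n : ZMod p)‖ ^ 2
      ≤ ∑ n ∈ range N, 2 * (psi T ((n : ZMod p) + (y : ZMod p)) * ‖FB χ B β (n : ZMod p)‖ ^ 2) := by
        apply Finset.sum_le_sum
        intro n hn
        have h3 := PC1_maj hMAJ p N T hT h n y (Finset.mem_range.1 hn) hy
        nlinarith [sq_nonneg ‖FB χ B β (n : ZMod p)‖]
    _ = ∑ x ∈ (range N).image (fun n : ℕ => (n : ZMod p)), 2 * (psi T (x + (y : ZMod p)) * ‖FB χ B β x‖ ^ 2) :=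
        (Finset.sum_image (f := fun x : ZMod p => 2 * (psi T (x + (y : ZMod p)) * ‖FB χ B β x‖ ^ 2)) hinj).symm
    _ ≤ ∑ x : ZMod p, 2 * (psi T (x + (y : ZMod p)) * ‖FB χ B β x‖ ^ 2) := by
        apply Finset.sum_le_sum_of_subset_of_nonneg (Finset.subset_univ _)
        intro x _ _
        have := PC1_psi0 p T (x + (y : ZMod p))
        positivity

theorem PC1_two (p : ℕ) [Fact p.Prime] (χ : MulChar (ZMod p) ℂ) (T : ℕ) (B : Finset (ZMod p))
    (β : ZMod p → ℂ) (hβ : ∀ b, ‖β b‖ ≤ 1) (y : ZMod p) :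
    ∑ x : ZMod p, psi T (x + y) * ‖FB χ B β x‖ ^ 2 ≤ ∑ b ∈ B, ∑ b' ∈ B, ‖Tp χ T (some (b - y)) (some (b' - y))‖ := by
  have h2 : ∀ x : ZMod p, ((‖FB χ B β x‖ : ℝ) : ℂ) ^ 2 =
      ∑ b ∈ B, ∑ b' ∈ B, (β b * χ (x + b)) * (starRingEnd ℂ) (β b' * χ (x + b')) := by
    intro x
    rw [← Complex.mul_conj', FB, map_sum, Finset.sum_mul_sum]
  have h3 : ∀ b b' : ZMod p, Tp χ T (some (b - y)) (some (b' - y)) =
      ∑ x : ZMod p, (psi T (x + y) : ℂ) * (χ (x + b) * (starRingEnd ℂ) (χ (x + b'))) := by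
    intro b b'
    unfold Tp
    rw [← Equiv.sum_comp (Equiv.addRight y)]
    apply Finset.sum_congr rfl
    intro x _
    simp only [Equiv.coe_addRight, ch]
    rw [show x + y + (b - y) = x + b by ring, show x + y + (b' - y) = x + b' by ring]
  have h1 : ((∑ x : ZMod p, psi T (x + y) * ‖FB χ B β x‖ ^ 2 : ℝ) : ℂ) =
      ∑ b ∈ B, ∑ b' ∈ B, β b * (starRingEnd ℂ) (β b') * Tp χ T (some (b - y)) (some (b' - y)) := by
    rw [Complex.ofReal_sum]
    have h4 : ∀ x : ZMod p, ((psi T (x + y) * ‖FB χ B β x‖ ^ 2 : ℝ) : ℂ) =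
        ∑ b ∈ B, ∑ b' ∈ B, β b * (starRingEnd ℂ) (β b') * ((psi T (x + y) : ℂ) * (χ (x + b) * (starRingEnd ℂ) (χ (x + b')))) := by
      intro x
      rw [Complex.ofReal_mul, Complex.ofReal_pow, h2, Finset.mul_sum]
      apply Finset.sum_congr rfl
      intro b _
      rw [Finset.mul_sum]
      apply Finset.sum_congr rfl
      intro b' _
      rw [map_mul]
      ring
    rw [Finset.sum_congr rfl fun x _ => h4 x, Finset.sum_comm]
    apply Finset.sum_congr rfl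
    intro b _
    rw [Finset.sum_comm]
    apply Finset.sum_congr rfl
    intro b' _
    rw [h3, Finset.mul_sum]
  have h5 : (0 : ℝ) ≤ ∑ x : ZMod p, psi T (x + y) * ‖FB χ B β x‖ ^ 2 := by
    apply Finset.sum_nonneg
    intro x _
    have := PC1_psi0 p T (x + y)
    positivity
  calc ∑ x : ZMod p, psi T (x + y) * ‖FB χ B β x‖ ^ 2
      = ‖((∑ x : ZMod p, psi T (x + y) * ‖FB χ B β x‖ ^ 2 : ℝ) : ℂ)‖ := by
        rw [Complex.norm_real, Real.norm_of_nonneg h5]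
    _ = ‖∑ b ∈ B, ∑ b' ∈ B, β b * (starRingEnd ℂ) (β b') * Tp χ T (some (b - y)) (some (b' - y))‖ := by rw [h1]
    _ ≤ ∑ b ∈ B, ∑ b' ∈ B, ‖Tp χ T (some (b - y)) (some (b' - y))‖ := by
        refine (norm_sum_le _ _).trans (Finset.sum_le_sum fun b _ => ?_)
        refine (norm_sum_le _ _).trans (Finset.sum_le_sum fun b' _ => ?_)
        rw [norm_mul, norm_mul, RCLike.norm_conj]
        have e1 := hβ b
        have e2 := hβ b'
        have e3 : ‖β b‖ * ‖β b'‖ ≤ 1 := by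
          calc ‖β b‖ * ‖β b'‖ ≤ 1 * 1 := mul_le_mul e1 e2 (norm_nonneg _) zero_le_one
            _ = 1 := one_mul 1
        calc ‖β b‖ * ‖β b'‖ * ‖Tp χ T (some (b - y)) (some (b' - y))‖
            ≤ 1 * ‖Tp χ T (some (b - y)) (some (b' - y))‖ := mul_le_mul_of_nonneg_right e3 (norm_nonneg _)
          _ = _ := one_mul _

theorem PC1_diag (hPSI : PSI_stmt) (p : ℕ) [Fact p.Prime] (χ : MulChar (ZMod p) ℂ) (T : ℕ) (hT : 0 < T) (hTp : T ≤ p)
    (c : ZMod p) : ‖Tp χ T (some c) (some c)‖ ≤ (p : ℝ) / T := by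
  rw [← (hPSI p T hT hTp).2]
  unfold Tp
  refine (norm_sum_le _ _).trans (Finset.sum_le_sum fun x _ => ?_)
  have h0 := PC1_psi0 p T x
  rw [norm_mul, norm_mul, RCLike.norm_conj, Complex.norm_real, Real.norm_of_nonneg h0]
  have h1 : ‖ch χ (some c) x‖ ≤ 1 := DirichletCharacter.norm_le_one χ (x + c)
  have h2 : ‖ch χ (some c) x‖ * ‖ch χ (some c) x‖ ≤ 1 := by
    calc ‖ch χ (some c) x‖ * ‖ch χ (some c) x‖ ≤ 1 * 1 := mul_le_mul h1 h1 (norm_nonneg _) zero_le_one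
      _ = 1 := one_mul 1
  calc psi T x * (‖ch χ (some c) x‖ * ‖ch χ (some c) x‖) ≤ psi T x * 1 := mul_le_mul_of_nonneg_left h2 h0
    _ = psi T x := mul_one _

theorem PC1_off (p : ℕ) [Fact p.Prime] (B : Finset (ZMod p)) (G : ZMod p → ZMod p → ℝ) (y : ZMod p) :
    ∑ b ∈ B, ∑ b' ∈ B.erase b, G (b - y) (b' - y) =
      ∑ c : ZMod p, ∑ c' ∈ univ.filter (fun c' : ZMod p => c ≠ c'), G c c' * (if c + y ∈ B ∧ c' + y ∈ B then 1 else 0) := by
  rw [← Equiv.sum_comp (Equiv.subRight y)]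
  simp only [Equiv.subRight_apply, sub_add_cancel]
  rw [← Finset.sum_subset (Finset.subset_univ B) (f := fun x : ZMod p =>
    ∑ c' ∈ univ.filter (fun c' : ZMod p => x - y ≠ c'), G (x - y) c' * (if x ∈ B ∧ c' + y ∈ B then 1 else 0))]
  · apply Finset.sum_congr rfl
    intro b hb
    rw [Finset.sum_filter, ← Equiv.sum_comp (Equiv.subRight y)]
    simp only [Equiv.subRight_apply, sub_add_cancel]
    rw [← Finset.sum_subset (Finset.subset_univ (B.erase b))]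
    · apply Finset.sum_congr rfl
      intro b' hb'
      obtain ⟨h1, h2⟩ := Finset.mem_erase.1 hb'
      have h3 : b - y ≠ b' - y := fun h => h1 (sub_left_injective h).symm
      rw [if_pos h3, if_pos ⟨hb, h2⟩, mul_one]
    · intro b' _ hb'
      by_cases h3 : b - y ≠ b' - y
      · rw [if_pos h3]
        have h4 : b' ∉ B := fun h => hb' (Finset.mem_erase.2 ⟨fun h5 => h3 (by rw [h5]), h⟩)
        rw [if_neg (fun h => h4 h.2), mul_zero]
      · rw [if_neg h3]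
  · intro b _ hb
    apply Finset.sum_eq_zero
    intro c' _
    rw [if_neg (fun h => hb h.1), mul_zero]

theorem PC1_alg (n a q Y : ℝ) (hn : n ≠ 0) : (n * (2 * (a * q)) + 2 * Y) / n = 2 * q * a + 2 / n * Y := by
  field_simp

theorem PC1_alg2 (n X : ℝ) (hn : n ≠ 0) : X = (n * X) / n := by
  field_simp

theorem PC1 (hMAJ : MAJ_stmt) (hPSI : PSI_stmt) : PC1_stmt := by
  intro p _ χ N T B β hN hT h hβ
  have hTp : T ≤ p := le_trans (Nat.le_mul_of_pos_left _ (by omega)) h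
  have hNr : (0 : ℝ) < N := Nat.cast_pos.2 hN
  set X := ∑ n ∈ range N, ‖FB χ B β (n : ZMod p)‖ ^ 2 with hX
  set Y := ∑ c : ZMod p, ∑ c' ∈ univ.filter (fun c' : ZMod p => c ≠ c'),
        ‖Tp χ T (some c) (some c')‖ * mm N B c c' with hY
  have h1 : ∀ y ∈ range N, X ≤ 2 * (B.card * ((p : ℝ) / T)) + 2 * ∑ c : ZMod p, ∑ c' ∈ univ.filter (fun c' : ZMod p => c ≠ c'),
      ‖Tp χ T (some c) (some c')‖ * (if c + (y : ZMod p) ∈ B ∧ c' + (y : ZMod p) ∈ B then 1 else 0) := by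
    intro y hy
    have e1 := PC1_one hMAJ p χ N T B β hT h y (Finset.mem_range.1 hy)
    have e2 := PC1_two p χ T B β hβ (y : ZMod p)
    have e3 : ∑ b ∈ B, ∑ b' ∈ B, ‖Tp χ T (some (b - (y : ZMod p))) (some (b' - (y : ZMod p)))‖ ≤
        B.card * ((p : ℝ) / T) + ∑ c : ZMod p, ∑ c' ∈ univ.filter (fun c' : ZMod p => c ≠ c'),
      ‖Tp χ T (some c) (some c')‖ * (if c + (y : ZMod p) ∈ B ∧ c' + (y : ZMod p) ∈ B then 1 else 0) := by
      rw [← PC1_off p B (fun c c' => ‖Tp χ T (some c) (some c')‖) (y : ZMod p)]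
      have e4 : ∀ b ∈ B, ∑ b' ∈ B, ‖Tp χ T (some (b - (y : ZMod p))) (some (b' - (y : ZMod p)))‖ ≤
          (p : ℝ) / T + ∑ b' ∈ B.erase b, ‖Tp χ T (some (b - (y : ZMod p))) (some (b' - (y : ZMod p)))‖ := by
        intro b hb
        rw [← Finset.add_sum_erase B _ hb]
        exact add_le_add (PC1_diag hPSI p χ T hT hTp _) le_rfl
      refine (Finset.sum_le_sum e4).trans ?_
      rw [Finset.sum_add_distrib, Finset.sum_const, nsmul_eq_mul]
    linarith
  have h2 := Finset.sum_le_sum h1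
  rw [Finset.sum_const, Finset.card_range, nsmul_eq_mul, Finset.sum_add_distrib, Finset.sum_const, Finset.card_range,
    nsmul_eq_mul, ← Finset.mul_sum] at h2
  have h3 : ∑ y ∈ range N, ∑ c : ZMod p, ∑ c' ∈ univ.filter (fun c' : ZMod p => c ≠ c'),
      ‖Tp χ T (some c) (some c')‖ * (if c + (y : ZMod p) ∈ B ∧ c' + (y : ZMod p) ∈ B then (1 : ℝ) else 0) = Y := by
    rw [hY, Finset.sum_comm]
    apply Finset.sum_congr rfl
    intro c _
    rw [Finset.sum_comm]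
    apply Finset.sum_congr rfl
    intro c' _
    rw [← Finset.mul_sum]
    congr 1
    unfold mm
    rw [Finset.card_filter]
    push_cast
    rfl
  rw [h3] at h2
  have h4 : X = (N * X) / N := PC1_alg2 _ _ hNr.ne'
  rw [h4]
  calc (N * X) / N ≤ (N * (2 * (B.card * ((p : ℝ) / T))) + 2 * Y) / N := by
        apply div_le_div_of_nonneg_right h2 hNr.le
    _ = 2 * ((p : ℝ) / T) * B.card + 2 / (N : ℝ) * Y := PC1_alg _ _ _ _ hNr.ne'

end Pool.Agent.OT
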