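import Pool.Agent.helper64.OT.SpecW

/-!
# Project OT, row WMS: the sums over closed points as sums over an extension field
-/

set_option autoImplicit false

namespace Pool.Agent.OT

open Finset Polynomial Pool.Agent.helper82.Weil Pool.Agent.helper82.KL

theorem WMS : WMS_stmt := by
  intro p _ K _ _ _ χ r u m hm
  rw [SA_eq (K := K) _ m hm]
  refine Finset.sum_congr rfl fun x _ => ?_
  have hint : ∀ y : K, IsIntegral (ZMod p) y := fun y => Algebra.IsIntegral.isIntegral y
  have htr : Algebra.trace (ZMod p) K x =
      ((Module.finrank (ZMod p) K / (minpoly (ZMod p) x).natDegree : ℕ) : ZMod p) * -(minpoly (ZMod p) x).nextCoeff := by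
    rw [trace_eq_finrank_mul_minpoly_nextCoeff]
    have h2 := Module.finrank_mul_finrank (ZMod p) (IntermediateField.adjoin (ZMod p) {x}) K
    rw [IntermediateField.adjoin.finrank (hint x)] at h2
    rw [← h2, Nat.mul_div_cancel_left _ (minpoly.natDegree_pos (hint x))]
  have h1 := norm_sub_algebraMap (k := ZMod p) x (-r)
  have h2 := norm_sub_algebraMap (k := ZMod p) x (0 : ZMod p)
  rw [map_neg, sub_neg_eq_add] at h1
  rw [map_zero, sub_zero] at h2
  unfold LM
  rw [mul_pow, mul_pow, ← map_pow χ, ← h1, ← map_pow (starRingEnd ℂ), ← map_pow χ, ← h2, normChar_apply, normChar_apply]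
  congr 1
  unfold ps
  rw [← AddChar.map_nsmul_eq_pow, nsmul_eq_mul, htr]
  congr 1
  ring

end Pool.Agent.OT
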